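import Mathlib

set_option autoImplicit false
open Set Filter Topology MeasureTheory Classical

namespace Pool.Agent.H.MP_a8721e_gt

abbrev K : Type := ℕ → ZMod 3
abbrev Q : Type := ℕ →₀ ZMod 3

def s (τ : Bool) (n : ℕ) : ZMod 3 := if τ = true ∧ Odd n then -1 else 1
noncomputable def R (τ : Bool) (y x : K) : Bool := decide (∃ n, (∀ j < n, x j = y j) ∧ x n = y n + s τ n)

lemma s_or (τ : Bool) (n : ℕ) : s τ n = 1 ∨ s τ n = -1 := by unfold s; split_ifs <;> simp
lemma s_ne (τ : Bool) (n : ℕ) : s τ n ≠ 0 := by rcases s_or τ n with h | h <;> rw [h] <;> decide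

lemma R_eq (τ : Bool) {y x : K} {n : ℕ} (h1 : ∀ j < n, x j = y j) (h2 : x n ≠ y n) :
    R τ y x = decide (x n - y n = s τ n) := by
  refine decide_eq_decide.2 ⟨fun ⟨m, a, b⟩ => ?_, fun h => ⟨n, h1, by rw [← h]; ring⟩⟩
  rcases lt_trichotomy m n with h | rfl | h
  · exact absurd (by simpa [h1 m h] using b) (s_ne τ m)
  · rw [b]; ring
  · exact absurd (a n h) h2

lemma fd {x y : K} (h : x ≠ y) : ∃ n, (∀ j < n, x j = y j) ∧ x n ≠ y n :=
  ⟨Nat.find (Function.ne_iff.1 h), fun _ hj => not_not.1 (Nat.find_min (Function.ne_iff.1 h) hj),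
    Nat.find_spec (Function.ne_iff.1 h)⟩

lemma agree (y : K) (n : ℕ) : ∀ᶠ x in 𝓝 y, ∀ j < n, x j = y j :=
  (eventually_all_finite (finite_Iio n)).2 fun j _ =>
    ((continuous_apply j).tendsto y).eventually (p := fun a => a = y j)
      ((isOpen_discrete {y j}).mem_nhds rfl)

lemma R_loc (τ : Bool) {y z : K} (h : y ≠ z) : ∀ᶠ x in 𝓝 y, x ≠ z ∧ R τ z x = R τ z y := by
  obtain ⟨n, h1, h2⟩ := fd h
  filter_upwards [agree y (n + 1)] with x hx
  have h3 : x n ≠ z n := by rwa [hx n (by omega)]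
  exact ⟨fun e => h3 (e ▸ rfl), by
    rw [R_eq τ h1 h2, R_eq τ (fun j hj => (hx j (by omega)).trans (h1 j hj)) h3, hx n (by omega)]⟩

def X (t : K → Bool) : Type := {p : K × (K → Bool) // ∀ z, z ≠ p.1 → p.2 z = R (t z) z p.1}

variable {t : K → Bool}

instance : TopologicalSpace (X t) := instTopologicalSpaceSubtype
instance : T2Space (X t) := inferInstanceAs (T2Space (Subtype _))
instance : TotallyDisconnectedSpace (X t) := inferInstanceAs (TotallyDisconnectedSpace (Subtype _))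
instance : CompactSpace (X t) := by
  refine isCompact_iff_compactSpace.1 (IsClosed.isCompact (s := {p : K × (K → Bool) |
    ∀ z, z ≠ p.1 → p.2 z = R (t z) z p.1}) ?_)
  refine isClosed_of_closure_subset fun p hp z hz => ?_
  obtain ⟨q, ⟨q1, q2⟩, q3⟩ := mem_closure_iff_nhds.1 hp _ (inter_mem
    ((continuous_fst.tendsto p).eventually (R_loc (t z) hz.symm))
    ((((continuous_apply z).comp continuous_snd).tendsto p).eventually (p := fun a => a = p.2 z)
      ((isOpen_discrete {p.2 z}).mem_nhds rfl)))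
  exact q2.symm.trans ((q3 z q1.1.symm).trans q1.2)

def π (p : X t) : K := p.1.1
def co (z : K) (p : X t) : Bool := p.1.2 z
def side (p : X t) : Bool := co (π p) p
noncomputable def mk (t : K → Bool) (y : K) (b : Bool) : X t :=
  ⟨(y, fun z => if z = y then b else R (t z) z y), fun _ hz => if_neg hz⟩

lemma cπ : Continuous (π (t := t)) := continuous_fst.comp continuous_subtype_val
lemma cco (z : K) : Continuous (co (t := t) z) :=
  (continuous_apply z).comp (continuous_snd.comp continuous_subtype_val)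
@[simp] lemma π_mk (y : K) (b : Bool) : π (mk t y b) = y := rfl
@[simp] lemma co_mk (y : K) (b : Bool) : co y (mk t y b) = b := if_pos rfl
@[simp] lemma side_mk (y : K) (b : Bool) : side (mk t y b) = b := if_pos rfl
lemma co_ne {z : K} {p : X t} (h : π p ≠ z) : co z p = R (t z) z (π p) := p.2 z h.symm
lemma ext' {p q : X t} (h1 : π p = π q) (h2 : side p = side q) : p = q := by
  refine Subtype.ext (Prod.ext h1 (funext fun z => ?_))
  by_cases h : π p = z
  · subst h
    exact h2.trans (by rw [side, ← h1]; rfl)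
  · exact (co_ne h).trans (by rw [h1] at h ⊢; exact (co_ne h).symm)

lemma tend {α : Type} {l : Filter α} {f : α → X t} {p : X t} (h1 : Tendsto (fun a => π (f a)) l (𝓝 (π p)))
    (h2 : ∀ᶠ a in l, co (π p) (f a) = side p) : Tendsto f l (𝓝 p) := by
  refine tendsto_subtype_rng.2 (h1.prodMk_nhds (tendsto_pi_nhds.2 fun z => tendsto_const_nhds.congr' ?_))
  by_cases h : π p = z
  · subst h
    exact h2.mono fun a ha => ha.symm
  · filter_upwards [h1.eventually (R_loc (t z) h)] with a ha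
    exact (co_ne h).trans (ha.2.symm.trans (co_ne ha.1).symm)

lemma ev {Z : Type} [TopologicalSpace Z] [DiscreteTopology Z] {F : X t → Z} (hF : Continuous F) (y : K) :
    ∀ᶠ x in 𝓝 y, x ≠ y → ∀ c, F (mk t x c) = F (mk t y (R (t y) y x)) := by
  have : ∀ b c, ∀ᶠ x in 𝓝 y, x ∈ {x | x ≠ y ∧ R (t y) y x = b} → F (mk t x c) = F (mk t y b) := fun b c => by
    rw [← eventually_inf_principal]
    have h := tend (t := t) (l := 𝓝 y ⊓ 𝓟 {x | x ≠ y ∧ R (t y) y x = b}) (f := fun x => mk t x c)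
      (p := mk t y b) (tendsto_id'.2 inf_le_left) (eventually_inf_principal.2 (Eventually.of_forall
        fun x hx => (co_ne (p := mk t x c) hx.1).trans (by simpa using hx.2)))
    exact ((hF.tendsto _).comp h).eventually (p := fun a => a = F (mk t y b))
      ((isOpen_discrete {_}).mem_nhds rfl)
  filter_upwards [eventually_all.2 fun b => eventually_all.2 (this b)] with x hx h c
  exact hx _ c ⟨h, rfl⟩

lemma approx (y : K) (d : ℕ → ZMod 3) (hd : ∀ n, d n ≠ 0) : ∃ q : ℕ → Q,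
    Tendsto (fun n => (q n : K)) atTop (𝓝 y) ∧ ∀ n, ⇑(q n) ≠ y ∧ ∀ τ, R τ y (q n) = decide (d n = s τ n) := by
  let q : ℕ → Q := fun n => Finsupp.onFinset (Finset.range (n + 1))
    (fun i => if i < n then y i else if i = n then y n + d n else 0) fun i hi => by
      by_contra h
      have : n < i := by simpa using h
      exact hi (by rw [if_neg (by omega), if_neg (by omega)])
  have h1 : ∀ n, q n n ≠ y n := fun n => by simp [q, hd]
  refine ⟨q, tendsto_pi_nhds.2 fun i => tendsto_const_nhds.congr' ?_, fun n => ⟨fun e => h1 n (by rw [e]),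
    fun τ => ?_⟩⟩
  · exact (eventually_gt_atTop i).mono fun n hn => by simp [q, hn]
  · rw [R_eq τ (fun j hj => by simp [q, hj]) (h1 n)]
    simp [q]

lemma approx' (y : K) (b : Bool) : ∃ q : ℕ → Q, Tendsto (fun n => (q n : K)) atTop (𝓝 y) ∧
    ∀ n, ⇑(q n) ≠ y ∧ R (t y) y (q n) = b := by
  obtain ⟨q, q1, q2⟩ := approx y (fun n => if b then s (t y) n else -s (t y) n) fun n => by
    cases b <;> simp [s_ne]
  refine ⟨q, q1, fun n => ⟨(q2 n).1, ((q2 n).2 _).trans ?_⟩⟩
  rcases s_or (t y) n with h | h <;> cases b <;> simp [h] <;> decide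

noncomputable def φ (a : Q → K) (y : K) : K := limUnder (comap (↑) (𝓝 y)) a
def E (a : Q → K) : Set K :=
  {y | Tendsto a (comap (↑) (𝓝 y)) (𝓝 (φ a y)) ∧ ¬ φ a y =ᶠ[atTop] y}
def bad (a : Q → K) (y : K) (τ τ' : Bool) : Prop :=
  ∃ ε, ∀ᶠ q : Q in comap (↑) (𝓝 y), ⇑q ≠ y → R τ' (φ a y) (a q) = xor (R τ y q) ε

lemma not_bad (a : Q → K) (y : K) (τ' : Bool) : ∃ τ, ¬ bad a y τ τ' := by
  by_contra! h
  obtain ⟨ε, h1⟩ := h true
  obtain ⟨ε', h2⟩ := h false
  obtain ⟨q, q1, q2⟩ := approx y (fun _ => 1) (fun _ => by decide)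
  obtain ⟨N, hN⟩ := eventually_atTop.1 ((tendsto_comap_iff.2 q1).eventually (h1.and h2))
  have k : ∀ n ≥ N, xor (decide (1 = s true n)) ε = xor (decide (1 = s false n)) ε' := fun n hn => by
    have := ((hN n hn).1 (q2 n).1).symm.trans ((hN n hn).2 (q2 n).1)
    rwa [(q2 n).2, (q2 n).2] at this
  have k1 := k (2 * N) (by omega)
  have k2 := k (2 * N + 1) (by omega)
  have e : ¬ (1 : ZMod 3) = -1 := by decide
  simp [s, e] at k1 k2
  simp [k1] at k2

lemma ex_h {y z : K} (h : z =ᶠ[atTop] y) : ∃ h : Q, z = y + h := by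
  refine ⟨Finsupp.ofSupportFinite (z - y) ?_, (add_sub_cancel y z).symm⟩
  rw [← Nat.cofinite_eq_atTop] at h
  exact (mem_cofinite.1 h).subset fun i hi e => hi (sub_eq_zero.2 e)

lemma cK : Cardinal.mk K = Cardinal.continuum := by
  simpa [K] using Cardinal.nat_power_aleph0 (n := 3) (by norm_num)

theorem ex_t : ∃ t : K → Bool, (∀ y z, y =ᶠ[atTop] z → t y = t z) ∧
    ∀ a, Cardinal.continuum ≤ Cardinal.mk (E a) → ∃ y ∈ E a, ¬ bad a y (t y) (t (φ a y)) := by
  let I := Cardinal.continuum.{0}.ord.ToType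
  obtain ⟨e⟩ : Nonempty (I ≃ (Q → K)) := Cardinal.eq.1 (by
    rw [← Cardinal.power_def, cK, Cardinal.mk_eq_aleph0 Q]; simp [I])
  let P : ∀ i : I, (∀ j < i, K × Bool) → K × Bool → Prop := fun i g v =>
    (∀ j h, ¬ v.1 =ᶠ[atTop] (g j h).1 ∧ ¬ v.1 =ᶠ[atTop] φ (e j) (g j h).1) ∧
    (Cardinal.continuum ≤ Cardinal.mk (E (e i)) → v.1 ∈ E (e i)) ∧
    ¬ bad (e i) v.1 v.2 (decide (∃ j h, φ (e i) v.1 =ᶠ[atTop] (g j h).1 ∧ (g j h).2 = true))
  have step : ∀ i g, ∃ v, P i g v := fun i g => by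
    let f : Iio i × Bool × Q → K := fun w =>
      (if w.2.1 then (g w.1 w.1.2).1 else φ (e w.1) (g w.1 w.1.2).1) + w.2.2
    have hf : Cardinal.mk (range f) < Cardinal.continuum := Cardinal.mk_range_le.trans_lt (by
      rw [Cardinal.mk_prod, Cardinal.lift_id, Cardinal.lift_id]
      exact Cardinal.mul_lt_of_lt Cardinal.aleph0_le_continuum (Cardinal.mk_Iio_toType_ord_lt i)
        (Cardinal.mk_le_aleph0.trans_lt Cardinal.aleph0_lt_continuum))
    obtain ⟨y, y1, y2⟩ : ∃ y ∉ range f, Cardinal.continuum ≤ Cardinal.mk (E (e i)) → y ∈ E (e i) := by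
      by_contra! h
      by_cases hc : Cardinal.continuum ≤ Cardinal.mk (E (e i))
      · exact hf.not_ge (hc.trans (Cardinal.mk_le_mk_of_subset fun y hy => by_contra fun h' => (h y h').2 hy))
      · refine hf.not_ge (cK.ge.trans (Cardinal.mk_univ.ge.trans (Cardinal.mk_le_mk_of_subset fun y _ => ?_)))
        exact by_contra fun h' => hc (h y h').1
    obtain ⟨τ, hτ⟩ := not_bad (e i) y (decide (∃ j h, φ (e i) y =ᶠ[atTop] (g j h).1 ∧ (g j h).2 = true))
    refine ⟨(y, τ), fun j h => ⟨fun k => ?_, fun k => ?_⟩, y2, hτ⟩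
    · obtain ⟨w, hw⟩ := ex_h k
      exact y1 ⟨(⟨j, h⟩, true, w), hw.symm⟩
    · obtain ⟨w, hw⟩ := ex_h k
      exact y1 ⟨(⟨j, h⟩, false, w), hw.symm⟩
  let F : I → K × Bool := (wellFounded_lt (α := I)).fix fun i g => Classical.epsilon (P i g)
  have hF : ∀ i, P i (fun j _ => F j) (F i) := fun i => by
    have e : F i = Classical.epsilon (P i fun j _ => F j) := WellFounded.fix_eq _ _ _
    rw [e]
    exact Classical.epsilon_spec (step i _)
  refine ⟨fun w => decide (∃ i, w =ᶠ[atTop] (F i).1 ∧ (F i).2 = true), fun y z h => decide_eq_decide.2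
    ⟨fun ⟨i, a, b⟩ => ⟨i, h.symm.trans a, b⟩, fun ⟨i, a, b⟩ => ⟨i, h.trans a, b⟩⟩, fun a ha => ?_⟩
  obtain ⟨i, rfl⟩ := e.surjective a
  obtain ⟨h1, h2, h3⟩ := hF i
  refine ⟨_, h2 ha, ?_⟩
  convert h3 using 2
  · rw [Bool.eq_iff_iff, decide_eq_true_iff]
    refine ⟨fun ⟨j, a, b⟩ => ?_, fun h => ⟨i, EventuallyEq.rfl, h⟩⟩
    rcases lt_trichotomy j i with h | rfl | h
    · exact absurd a (h1 j h).1
    · exact b
    · exact absurd a.symm ((hF j).1 i h).1
  · refine decide_eq_decide.2 ⟨fun ⟨j, a, b⟩ => ⟨j, ?_, a, b⟩, fun ⟨j, _, a, b⟩ => ⟨j, a, b⟩⟩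
    rcases lt_trichotomy j i with h | rfl | h
    · exact h
    · exact absurd a (h2 ha).2
    · exact absurd a.symm ((hF j).1 i h).2

end Pool.Agent.H.MP_a8721e_gt
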