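import Pool.Agent.H.MP_a8721e_gt.A

set_option autoImplicit false
open Set Filter Topology MeasureTheory Classical

namespace Pool.Agent.H.MP_a8721e_gt

variable {t : K → Bool}

lemma null_of_lt [MeasurableSpace K] [BorelSpace K] {N : Set K} (hN : MeasurableSet N)
    (h : Cardinal.mk N < Cardinal.continuum) : (Measure.addHaar : Measure K) N = 0 := by
  by_contra h0
  haveI : TopologicalSpace.IsCompletelyMetrizableSpace (ZMod 3) := .discrete
  haveI : TopologicalSpace.IsCompletelyMetrizableSpace K := .pi_countable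
  haveI : TopologicalSpace.SeparableSpace K := inferInstance
  haveI : (𝓝[≠] (0 : K)).NeBot := by
    obtain ⟨q, q1, q2⟩ := approx 0 (fun _ => 1) (fun _ => by decide)
    exact (tendsto_nhdsWithin_iff.2 ⟨q1, Eventually.of_forall fun n => (q2 n).1⟩).neBot
  obtain ⟨C, c1, c2, c3⟩ := hN.exists_lt_isCompact (pos_iff_ne_zero.2 h0)
  obtain ⟨f, f1, -, f2⟩ := c2.isClosed.exists_nat_bool_injection_of_not_countable
    fun hc => c3.ne' (hc.measure_zero _)
  refine h.not_ge (le_trans ?_ (Cardinal.mk_le_mk_of_subset (f1.trans c1)))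
  rw [Cardinal.mk_range_eq _ f2]
  simp

lemma tend_mk (y : K) (b c : Bool) : ∃ q : ℕ → Q, Tendsto (fun n => (q n : K)) atTop (𝓝 y) ∧
    Tendsto (fun n => mk t (q n) c) atTop (𝓝 (mk t y b)) := by
  obtain ⟨q, q1, q2⟩ := approx' (t := t) y b
  exact ⟨q, q1, tend q1 (Eventually.of_forall fun n =>
    (co_ne (p := mk t (q n) c) (q2 n).1).trans (by simpa using (q2 n).2))⟩

theorem surj (ha : ∀ a, Cardinal.continuum ≤ Cardinal.mk (E a) → ∃ y ∈ E a, ¬ bad a y (t y) (t (φ a y)))
    {u : X t → X t} (uc : Continuous u) (ui : Function.Injective u) : Function.Surjective u := by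
  borelize K
  let a : Q → K := fun q => π (u (mk t q true))
  have fib : ∀ y w p, π (u (mk t y true)) = w → π (u (mk t y false)) = w → π (u p) = w → π p = y := by
    intro y w p h1 h2 h3
    by_cases h4 : side (u p) = side (u (mk t y true))
    · rw [ui (ext' (h3.trans h1.symm) h4), π_mk]
    · by_cases h5 : side (u p) = side (u (mk t y false))
      · rw [ui (ext' (h3.trans h2.symm) h5), π_mk]
      · have := congrArg side (ui (ext' (h1.trans h2.symm) (by
          revert h4 h5; cases side (u p) <;> simp +contextual)))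
        simp at this
  let D := {y | π (u (mk t y true)) ≠ π (u (mk t y false))}
  have Fc : ∀ i, Continuous fun p => π (u p) i := fun i => (continuous_apply i).comp (cπ.comp uc)
  have hD : D.Countable := by
    refine (countable_iUnion fun i => (show {y | π (u (mk t y true)) i ≠ π (u (mk t y false)) i}.Finite
      from ?_).countable).mono fun y hy => mem_iUnion.2 (Function.ne_iff.1 hy)
    by_contra hi
    obtain ⟨y, -, hy⟩ := Set.Infinite.exists_accPt_of_subset_isCompact hi isCompact_univ (subset_univ _)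
    obtain ⟨x, x1, x2⟩ := ((accPt_iff_frequently.1 hy).and_eventually (ev (Fc i) y)).exists
    exact x1.2 ((x2 x1.1 true).trans (x2 x1.1 false).symm)
  have hE : Cardinal.mk (E a) < Cardinal.continuum := by
    by_contra! h
    obtain ⟨y, ⟨y1, -⟩, y2⟩ := ha a h
    have e : ∀ b, π (u (mk t y b)) = φ a y := fun b => by
      obtain ⟨q, q1, q2⟩ := tend_mk (t := t) y b true
      exact tendsto_nhds_unique (((cπ.comp uc).tendsto _).comp q2) (y1.comp (tendsto_comap_iff.2 q1))
    have e2 : ∀ b, co (φ a y) (u (mk t y b)) = xor b (co (φ a y) (u (mk t y false))) := by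
      have : co (φ a y) (u (mk t y true)) ≠ co (φ a y) (u (mk t y false)) := fun h => by
        have := congrArg side (ui (ext' ((e true).trans (e false).symm) (by simpa only [side, e] using h)))
        simp at this
      intro b
      cases b
      · simp
      · revert this
        cases co (φ a y) (u (mk t y true)) <;> simp
    refine y2 ⟨co (φ a y) (u (mk t y false)), ?_⟩
    filter_upwards [(tendsto_comap (f := ((↑) : Q → K))).eventually (ev ((cco (φ a y)).comp uc) y)] with q hq h
    rw [← e2]
    refine Eq.trans (co_ne (p := u (mk t q true)) fun k => h (fib y _ _ (e true) (e false) k)).symm (hq h true)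
  let B : Q → Set K := fun h => π '' {p | π (u p) = π p + h}
  have Bm : ∀ h, MeasurableSet (B h \ D) := fun h => ((isClosed_eq (cπ.comp uc)
    (cπ.add continuous_const)).isCompact.image cπ).isClosed.measurableSet.diff hD.measurableSet
  have Bv : ∀ h, ∀ y ∈ B h \ D, ∀ b, π (u (mk t y b)) = y + h := by
    rintro h _ ⟨⟨p, hp, rfl⟩, h2⟩ b
    have h3 : π (u (mk t (π p) (side p))) = π p + h := by
      rw [ext' (p := mk t (π p) (side p)) (q := p) rfl (side_mk _ _)]; exact hp
    have h4 := not_not.1 h2
    revert h3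
    cases b <;> cases side p <;> simp [h4]
  have hN : (Measure.addHaar : Measure K) (⋃ h, B h \ D)ᶜ = 0 := by
    refine null_of_lt (MeasurableSet.iUnion Bm).compl ((Cardinal.mk_le_mk_of_subset
      (t := E a ∪ D) fun y hy => ?_).trans_lt ((Cardinal.mk_union_le _ _).trans_lt
        (Cardinal.add_lt_of_lt Cardinal.aleph0_le_continuum hE
          ((Cardinal.le_aleph0_iff_set_countable.2 hD).trans_lt Cardinal.aleph0_lt_continuum))))
    by_contra! h
    have h1 : π (u (mk t y true)) = π (u (mk t y false)) := not_not.1 fun k => h (Or.inr k)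
    have h2 : Tendsto a (comap (↑) (𝓝 y)) (𝓝 (π (u (mk t y true)))) := by
      refine tendsto_pi_nhds.2 fun i => tendsto_const_nhds.congr' ?_
      filter_upwards [(tendsto_comap (f := ((↑) : Q → K))).eventually (ev (Fc i) y)] with q hq
      by_cases k : ⇑q = y
      · simp only [a, k]
      · refine Eq.trans ?_ (hq k true).symm
        cases R (t y) y q
        · rw [h1]
        · rfl
    obtain ⟨q, q1, -⟩ := tend_mk (t := t) y true true
    haveI : (comap ((↑) : Q → K) (𝓝 y)).NeBot := (tendsto_comap_iff.2 q1).neBot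
    have h3 : φ a y = π (u (mk t y true)) := h2.limUnder_eq
    obtain ⟨w, hw⟩ := ex_h (not_not.1 fun k => h (Or.inl ⟨h3 ▸ h2, k⟩))
    exact hy (mem_iUnion.2 ⟨w, ⟨mk t y true, h3.symm.trans hw, rfl⟩, fun k => k h1⟩)
  have cl : IsClosed (range u) := (isCompact_range uc).isClosed
  have cl2 : IsClosed (π '' range u) := (cl.isCompact.image cπ).isClosed
  have full : (π '' range u)ᶜ = ∅ := by
    refine cl2.isOpen_compl.eq_empty_of_measure_zero (μ := Measure.addHaar) ?_
    rw [measure_compl cl2.measurableSet (measure_ne_top _ _), tsub_eq_zero_iff_le,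
      ← measure_of_measure_compl_eq_zero hN]
    refine (measure_iUnion_le _).trans (le_trans ?_ (measure_mono
      (s := ⋃ h : Q, (fun x => x + -⇑h) ⁻¹' (B h \ D)) fun w hw => ?_))
    · rw [measure_iUnion _ fun h => (Bm h).preimage (measurable_add_const _)]
      · simp only [measure_preimage_add_right, le_refl]
      · intro h h' hne
        refine disjoint_left.2 fun w k1 k2 => hne ?_
        have := fib _ w (mk t (w + -⇑h') true) (by simpa using Bv h _ k1 true) (by simpa using Bv h _ k1 false)
          (by simpa using Bv h' _ k2 true)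
        simpa using this.symm
    · obtain ⟨h, k⟩ := mem_iUnion.1 hw
      exact ⟨_, mem_range_self _, by simpa using Bv h _ k true⟩
  intro p
  obtain ⟨q, q1, q2⟩ := approx' (t := t) (π p) (side p)
  have : ∀ n, ∃ v ∈ range u, π v = q n := fun n => by
    by_contra k
    exact (full ▸ k : ⇑(q n) ∈ (∅ : Set K))
  choose v v1 v2 using this
  refine cl.mem_of_tendsto (tend (l := atTop) (f := v) (by simpa only [v2] using q1)
    (Eventually.of_forall fun n => ?_)) (Eventually.of_forall v1)
  rw [co_ne (v2 n ▸ (q2 n).1), v2, (q2 n).2]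

noncomputable def L (t : K → Bool) (ψ : K → K) (ε : K → Bool) (p : X t) : X t :=
  mk t (ψ (π p)) (xor (side p) (ε (π p)))

lemma L_inj {ψ : K → K} (ε : K → Bool) (hi : Function.Injective ψ) : Function.Injective (L t ψ ε) :=
  fun p q h => by
    have h1 : π p = π q := hi (congrArg π h)
    have h2 := congrArg side h
    simp only [L, side_mk, h1, Bool.xor_left_inj] at h2
    exact ext' h1 h2

lemma L_cont {ψ : K → K} {ε : K → Bool} (hc : Continuous ψ) (hi : Function.Injective ψ)
    (H : ∀ v, ∀ᶠ x in 𝓝 v, x ≠ v → R (t (ψ v)) (ψ v) (ψ x) = xor (R (t v) v x) (ε v)) :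
    Continuous (L t ψ ε) := continuous_iff_continuousAt.2 fun p => by
  refine tend ((hc.comp cπ).tendsto p) ?_
  filter_upwards [(cπ.tendsto p).eventually (H (π p)), ((cco (π p)).tendsto p).eventually
    (p := fun a => a = side p) ((isOpen_discrete {_}).mem_nhds rfl)] with q h1 h2
  by_cases h : π q = π p
  · simp only [L, π_mk, side_mk, h, co_mk]
    rw [← h2, side, h]
  · refine (co_ne (p := L t ψ ε q) (hi.ne h)).trans ?_
    simp only [L, π_mk, side_mk]
    rw [h1 h, ← h2, co_ne h]

lemma H_loc (ht : ∀ y z, y =ᶠ[atTop] z → t y = t z) {ψ : K → K} {v : K} (n : ℕ)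
    (h : ∀ x, (∀ j < n, x j = v j) → (∀ j < n, ψ x j = ψ v j) ∧ ∀ j, n ≤ j → ψ x j = x j) :
    ∀ᶠ x in 𝓝 v, x ≠ v → R (t (ψ v)) (ψ v) (ψ x) = R (t v) v x := by
  filter_upwards [agree v n] with x hx hne
  obtain ⟨m, m1, m2⟩ := fd hne
  have hm : n ≤ m := not_lt.1 fun k => m2 (hx m k)
  have hv := (h v fun _ _ => rfl).2
  rw [ht (ψ v) v ((eventually_ge_atTop n).mono hv), R_eq _ m1 m2, R_eq (n := m), (h x hx).2 m hm, hv m hm]
  · intro j hj
    rcases lt_or_ge j n with k | k
    · exact (h x hx).1 j k
    · rw [(h x hx).2 j k, hv j k, m1 j hj]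
  · rwa [(h x hx).2 m hm, hv m hm]

lemma z3 : ∀ (d u w : ZMod 3) (b : Bool), d ≠ 0 → u ≠ 0 → w ≠ 0 →
    decide ((u * w * if b then -1 else 1) * d = w) = xor (decide (d = u)) b := by decide

theorem homog (ht : ∀ y z, y =ᶠ[atTop] z → t y = t z) (p q : X t) :
    ∃ u : X t → X t, Continuous u ∧ Function.Injective u ∧ u p = q := by
  let σ : ℕ → ZMod 3 := fun n => s (t (π p)) n * s (t (π q)) n * if xor (side p) (side q) then -1 else 1
  have σ0 : ∀ n, σ n ≠ 0 := fun n => by
    rcases s_or (t (π p)) n with h | h <;> rcases s_or (t (π q)) n with k | k <;> simp only [σ, h, k] <;>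
      split_ifs <;> decide
  haveI : Fact (Nat.Prime 3) := ⟨by norm_num⟩
  let ψ : K → K := fun x i => if ∀ j < i, x j = π p j then π q i + σ i * (x i - π p i) else x i
  have h0 : ψ (π p) = π q := funext fun i => by simp [ψ]
  have cg : ∀ x x' i, (∀ j < i + 1, x j = x' j) → ψ x i = ψ x' i := fun x x' i h => by
    simp only [ψ, h i (by omega)]
    exact if_congr (forall₂_congr fun j hj => by rw [h j (by omega)]) rfl rfl
  have hc : Continuous ψ := continuous_pi fun i => continuous_iff_continuousAt.2 fun x =>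
    tendsto_const_nhds.congr' ((agree x (i + 1)).mono fun x' h => (cg x' x i h).symm)
  have hi : Function.Injective ψ := fun x x' h => by
    by_contra hne
    obtain ⟨n, n1, n2⟩ := fd hne
    have := congrFun h n
    have e : (∀ j < n, x j = π p j) ↔ ∀ j < n, x' j = π p j := forall₂_congr fun j hj => by rw [n1 j hj]
    simp only [ψ, e] at this
    split_ifs at this
    · exact n2 (by simpa [σ0] using this)
    · exact n2 this
  refine ⟨L t ψ fun v => if v = π p then xor (side p) (side q) else false, L_cont hc hi fun v => ?_,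
    L_inj _ hi, ext' h0 (by simp [L])⟩
  by_cases hv : v = π p
  · subst hv
    refine Eventually.of_forall fun x hx => ?_
    obtain ⟨n, n1, n2⟩ := fd hx
    have e : ψ x n - π q n = σ n * (x n - π p n) := by simp only [ψ, if_pos n1]; ring
    rw [h0, if_pos rfl, R_eq _ n1 n2, R_eq (n := n), e]
    · exact z3 _ _ _ _ (sub_ne_zero.2 n2) (s_ne _ _) (s_ne _ _)
    · intro j hj
      simp only [ψ, n1 j hj, sub_self, mul_zero, add_zero]
      exact if_pos fun i hi => n1 i (hi.trans hj)
    · rw [← sub_ne_zero, e]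
      exact mul_ne_zero (σ0 n) (sub_ne_zero.2 n2)
  · obtain ⟨n, n1, n2⟩ := fd hv
    simp only [if_neg hv, Bool.xor_false]
    exact H_loc ht (n + 1) fun x hx => ⟨fun j hj => cg x v j fun i hi => hx i (by omega), fun j hj =>
      if_neg fun k => n2 ((hx n (by omega)).symm.trans (k n (by omega)))⟩

end Pool.Agent.H.MP_a8721e_gt
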